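import Pool.Agent.N463.HW.Stm

set_option autoImplicit false

/-! # Project HW, part SER: the series step -/

open MeasureTheory

namespace Pool.Agent.N950.HW

open Pool.Agent.N463.HW

theorem zz_cont : Continuous zz := by
  unfold zz
  fun_prop

theorem taylor (b : ℂ → ℂ) (hb : Differentiable ℂ b) (z : ℂ) :
    HasSum (fun k : ℕ => (((k.factorial : ℂ)⁻¹ * iteratedDeriv k b 0) * z ^ k)) (b z) := by
  have h := Complex.hasSum_taylorSeries_of_entire hb 0 z
  have e : (fun k : ℕ => (((k.factorial : ℂ)⁻¹ * iteratedDeriv k b 0) * z ^ k)) =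
      fun n : ℕ => (n.factorial : ℂ)⁻¹ • (z - 0) ^ n • iteratedDeriv n b 0 := by
    funext k
    rw [sub_zero, smul_eq_mul, smul_eq_mul]
    ring
  rw [e]
  exact h

theorem taylor_deriv (b : ℂ → ℂ) (hb : Differentiable ℂ b) (z : ℂ) :
    HasSum (fun k : ℕ => ((k : ℂ) * (((k.factorial : ℂ)⁻¹ * iteratedDeriv k b 0) * z ^ k)))
      (z * deriv b z) := by
  have hd : Differentiable ℂ (deriv b) := by
    have := hb.contDiff (n := 2)
    exact (this.differentiable_deriv_two)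
  have h := (Complex.hasSum_taylorSeries_of_entire hd 0 z).mul_left z
  rw [← hasSum_nat_add_iff' 1]
  simp only [Finset.range_one, Finset.sum_singleton, Nat.cast_zero, zero_mul, sub_zero]
  have e : (fun n : ℕ => (((n + 1 : ℕ) : ℂ) * (((((n + 1).factorial : ℕ) : ℂ)⁻¹ *
      iteratedDeriv (n + 1) b 0) * z ^ (n + 1)))) =
      fun i : ℕ => z * ((i.factorial : ℂ)⁻¹ • (z - 0) ^ i • iteratedDeriv i (deriv b) 0) := by
    funext k
    rw [← iteratedDeriv_succ', sub_zero, smul_eq_mul, smul_eq_mul, Nat.factorial_succ,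
      Nat.cast_mul]
    have h1 : ((k + 1 : ℕ) : ℂ) ≠ 0 := by exact_mod_cast Nat.succ_ne_zero k
    have h2 : (k.factorial : ℂ) ≠ 0 := by exact_mod_cast k.factorial_ne_zero
    field_simp
    ring
  rw [e]
  exact h

theorem t_SER : S_SER := by
  intro Ω hΩ hM hMom b hb
  obtain ⟨M0, hM0⟩ := hM
  set M : ℝ := max M0 0 with hMdef
  have hMb : ∀ w ∈ Ω, ‖zz w‖ ≤ M := fun w hw => (hM0 w hw).trans (le_max_left _ _)
  have hMn : 0 ≤ M := le_max_right _ _
  have hfin : volume Ω ≠ ⊤ := by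
    have hsub : Ω ⊆ Metric.closedBall 0 M := by
      intro w hw
      rw [mem_closedBall_zero_iff, Prod.norm_def, max_le_iff]
      have hz := hMb w hw
      have e1 : (zz w).re = w.1 := by simp [zz]
      have e2 : (zz w).im = w.2 := by simp [zz]
      refine ⟨?_, ?_⟩
      · rw [← e1]; exact (Complex.abs_re_le_norm _).trans hz
      · rw [← e2]; exact (Complex.abs_im_le_norm _).trans hz
    exact ne_top_of_le_ne_top (isCompact_closedBall _ _).measure_ne_top (measure_mono hsub)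
  obtain ⟨a, ha⟩ : ∃ a : ℕ → ℂ, a = fun k => (k.factorial : ℂ)⁻¹ * iteratedDeriv k b 0 := ⟨_, rfl⟩
  set F : ℕ → ℝ × ℝ → ℂ := fun k w => a k * (zz w ^ k * ((k : ℂ) - Real.pi * (‖zz w‖ ^ 2 : ℝ)) *
      Complex.exp (-Real.pi * (‖zz w‖ ^ 2 : ℝ))) with hF
  have hFc : ∀ k, Continuous (F k) := by
    intro k
    have hz := zz_cont
    have hn : Continuous fun w => (((‖zz w‖ ^ 2 : ℝ)) : ℂ) :=
      Complex.continuous_ofReal.comp (hz.norm.pow 2)
    simp only [hF]
    exact continuous_const.mul (((hz.pow k).mul (continuous_const.sub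
      (continuous_const.mul hn))).mul (Complex.continuous_exp.comp (continuous_const.mul hn)))
  have hexp : ∀ r : ℝ, ‖Complex.exp (-Real.pi * ((r ^ 2 : ℝ) : ℂ))‖ ≤ 1 := by
    intro r
    rw [Complex.norm_exp]
    have : (-Real.pi * ((r ^ 2 : ℝ) : ℂ)).re = -Real.pi * r ^ 2 := by
      rw [← Complex.ofReal_neg, ← Complex.ofReal_mul, Complex.ofReal_re]
    rw [this, Real.exp_le_one_iff]
    nlinarith [Real.pi_pos, sq_nonneg r]
  have hbd : ∀ k, ∀ w ∈ Ω, ‖F k w‖ ≤ ‖a k‖ * M ^ k * (k + Real.pi * M ^ 2) := by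
    intro k w hw
    have hz := hMb w hw
    simp only [hF]
    have e0 : ‖a k‖ * M ^ k * (k + Real.pi * M ^ 2) = ‖a k‖ * (M ^ k * (k + Real.pi * M ^ 2)) := by
      ring
    rw [norm_mul, norm_mul, norm_mul, norm_pow, e0]
    refine mul_le_mul_of_nonneg_left ?_ (norm_nonneg (a k))
    have e1 : ‖(k : ℂ) - Real.pi * (‖zz w‖ ^ 2 : ℝ)‖ ≤ k + Real.pi * M ^ 2 := by
      refine (norm_sub_le _ _).trans ?_
      rw [Complex.norm_natCast, norm_mul, Complex.norm_real, Complex.norm_real,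
        Real.norm_of_nonneg Real.pi_pos.le, Real.norm_of_nonneg (sq_nonneg _)]
      have : ‖zz w‖ ^ 2 ≤ M ^ 2 := pow_le_pow_left₀ (norm_nonneg _) hz 2
      nlinarith [Real.pi_pos]
    calc ‖zz w‖ ^ k * ‖(k : ℂ) - Real.pi * (‖zz w‖ ^ 2 : ℝ)‖ *
          ‖Complex.exp (-Real.pi * (‖zz w‖ ^ 2 : ℝ))‖
        ≤ ‖zz w‖ ^ k * ‖(k : ℂ) - Real.pi * (‖zz w‖ ^ 2 : ℝ)‖ * 1 :=
          mul_le_mul_of_nonneg_left (hexp _) (by positivity)
      _ = ‖zz w‖ ^ k * ‖(k : ℂ) - Real.pi * (‖zz w‖ ^ 2 : ℝ)‖ := mul_one _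
      _ ≤ M ^ k * (k + Real.pi * M ^ 2) :=
          mul_le_mul (pow_le_pow_left₀ (norm_nonneg _) hz k) e1 (norm_nonneg _) (by positivity)
  have hFi : ∀ k, Integrable (F k) (volume.restrict Ω) := by
    intro k
    exact Measure.integrableOn_of_bounded hfin (hFc k).aestronglyMeasurable
      (M := ‖a k‖ * M ^ k * (k + Real.pi * M ^ 2))
      ((ae_restrict_iff' hΩ).2 (Filter.Eventually.of_forall (hbd k)))
  have hs1 : Summable fun k => ‖a k‖ * M ^ k := by
    have h := (taylor b hb (M : ℂ)).summable.norm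
    refine h.congr fun k => ?_
    rw [norm_mul, norm_pow, Complex.norm_real, Real.norm_of_nonneg hMn, ha]
  have hs2 : Summable fun k : ℕ => (k : ℝ) * (‖a k‖ * M ^ k) := by
    have h := (taylor_deriv b hb (M : ℂ)).summable.norm
    refine h.congr fun k => ?_
    rw [norm_mul, norm_mul, norm_pow, Complex.norm_real, Real.norm_of_nonneg hMn,
      Complex.norm_natCast, ha]
  have hs3 : Summable fun k : ℕ => ‖a k‖ * M ^ k * (k + Real.pi * M ^ 2) := by
    refine (hs2.add (hs1.mul_right (Real.pi * M ^ 2))).congr fun k => ?_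
    ring
  have hsum : Summable fun k => ∫ w in Ω, ‖F k w‖ := by
    refine Summable.of_nonneg_of_le (fun k => integral_nonneg fun w => norm_nonneg _) (fun k => ?_)
      (hs3.mul_right (volume Ω).toReal)
    have h1 : ∫ w in Ω, ‖F k w‖ ≤ ∫ w in Ω, ‖a k‖ * M ^ k * (k + Real.pi * M ^ 2) := by
      refine setIntegral_mono_on (hFi k).norm ?_ hΩ fun w hw => hbd k w hw
      exact integrableOn_const hfin
    refine h1.trans (le_of_eq ?_)
    rw [setIntegral_const, smul_eq_mul, mul_comm]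
    rfl
  have key := hasSum_integral_of_summable_integral_norm hFi hsum
  have hpt : ∀ w, ∑' k, F k w = (zz w * deriv b (zz w) - Real.pi * (‖zz w‖ ^ 2 : ℝ) * b (zz w)) *
          Complex.exp (-Real.pi * (‖zz w‖ ^ 2 : ℝ)) := by
    intro w
    have h1 := (((taylor_deriv b hb (zz w)).sub ((taylor b hb (zz w)).mul_left
      ((Real.pi : ℂ) * ((‖zz w‖ ^ 2 : ℝ) : ℂ)))).mul_right (Complex.exp (-Real.pi * (‖zz w‖ ^ 2 : ℝ))))
    rw [← h1.tsum_eq]
    refine tsum_congr fun k => ?_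
    simp only [hF, ha]
    ring
  simp only [hpt] at key
  have hz : ∀ k, k ≠ 0 → ∫ w in Ω, F k w = 0 := by
    intro k hk
    have h1 := hMom k (Nat.one_le_iff_ne_zero.2 hk)
    simp only [hF]
    rw [integral_const_mul, h1, mul_zero]
  have key2 := key.unique (hasSum_single 0 hz)
  rw [key2]
  simp only [hF, ha, Nat.factorial_zero, Nat.cast_one, inv_one, one_mul, iteratedDeriv_zero,
    pow_zero, Nat.cast_zero, zero_sub]
  rw [integral_const_mul]
  have h3 : ∀ w : ℝ × ℝ, -(Real.pi * ((‖zz w‖ ^ 2 : ℝ) : ℂ)) *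
      Complex.exp (-Real.pi * ((‖zz w‖ ^ 2 : ℝ) : ℂ)) =
      (-Real.pi : ℂ) * ((‖zz w‖ ^ 2 * Real.exp (-Real.pi * ‖zz w‖ ^ 2) : ℝ) : ℂ) := by
    intro w
    push_cast
    ring
  simp only [h3]
  rw [integral_const_mul, integral_complex_ofReal]
  ring

end Pool.Agent.N950.HW
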